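import Pool.Agent.N102.EC.Inf
import Pool.Agent.N102.EC.Sys
import Pool.Agent.N37.EC.Dvr
import Pool.Agent.N765.EC.QUOT
import Pool.Agent.N901.EC.BD
import Pool.Agent.N98.RW.Ver

/-!
MP_4ed7e0_lc: hypothesis (R4) in bounded degree, in all dimensions, with an explicit bound for the
characteristic.

(R4) says that every large field `k` is existentially closed in every extension field `K` which
admits a valuation, trivial on `k`, with the residue field `k`. It is known for perfect `k` (Kuhlmann)
and for `K` of transcendence degree at most `3` over `k` (Cossart, Piltant).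

Let `k` be an arbitrary large field (of arbitrary degree of imperfection, for example
`k = F_p((t))`), and let `K` be the function field of a variety over `k` of dimension `r` and degree
at most `δ`. Suppose that `k` has characteristic `0` or `p > δ ^ 2 ^ r`. If `K` has a valuation, of
any rank, trivial on `k`, with the residue field `k`, then `k` is existentially closed in `K`. (This is
the case `E = R = k` of the theorem.) In other words: if a variety over `k` of dimension `r` and
degree at most `δ` has a `k`-rational place, centred at any `k`-rational point, possibly a singular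
one at infinity, then its `k`-rational points are dense.

More generally, let `k ⊆ E ⊆ K`, where the theorem is known for `E` in the strong form of log
uniformization: `V ∩ E` is log uniformizable on `Spec R`, `k ⊆ R ⊆ E ∩ V` (for example, `E` of
transcendence degree at most `3` over `k`, by Cossart and Piltant), or the local ring of `Spec R` at
the centre of `V` is regular of dimension at most two (for example `R = k[u]` or `R = k[u, v]`,
where `u`, `v` in `V` are algebraically independent). If `K` is the function field of a variety
over `E` of dimension `r` and degree at most `δ`, then `p > δ ^ 2 ^ r` is sufficient, whatever the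
transcendence degree of `E` is.

The proof: `V` is centred on a regular local ring with the fraction field `K`, in which a given
system of equations which is solvable in `K` has a solution (theorem `BoundedDegreeLogUniformization`
(MP_5b7a2c_ag) of helper98; blowings-up of models over which families of polynomials of bounded degree,
closed under derivatives and resultants, are locally monomial); this local ring has the residue
field `k`, and there is a homomorphism over `k` of this ring to `k[[T]]` which does not kill a given
element (reduction of the dimension by sections), which gives a solution in `k((T))`.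

helper102 (statement, proof), helpers 37, 765 (homomorphisms of regular local rings), helper901
(models along `V` in bounded degree), helper98 (the theory of bounded degree).
-/

set_option autoImplicit false

universe u

namespace Pool.Agent.Results.MP_4ed7e0_lc.BoundedDegree

open Pool.Agent.W418.LU2 Pool.Agent.N98.RW Pool.Agent.H176.DT

/-- The field `k` is existentially closed in its extension field `K`: every finite system of
polynomial equations over `k` which has a solution in `K` has a solution in `k`. (Inequations
`g ≠ 0` can be written as equations `w * g = 1`.) -/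
def ExistentiallyClosed (k K : Type u) [Field k] [Field K] [Algebra k K] : Prop :=
  ∀ (n : ℕ) (S : Set (MvPolynomial (Fin n) k)), S.Finite → ∀ a : Fin n → K,
    (∀ f ∈ S, MvPolynomial.aeval a f = 0) → ∃ b : Fin n → k, ∀ f ∈ S, MvPolynomial.aeval b f = 0

/-- The field `k` is large: it is existentially closed in `k((T))`. -/
def IsLarge (k : Type u) [Field k] : Prop := ExistentiallyClosed k (LaurentSeries k)

/-- The local ring of `Spec B` at the centre of the valuation ring `V`: the fractions of elements
of `B` whose denominators are units of `V`. -/
def centreRing {F : Type u} [Field F] (V : ValuationSubring F) (B : Subring F) : Subring F where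
  carrier := {x | ∃ a ∈ B, ∃ b ∈ B, b ≠ 0 ∧ b⁻¹ ∈ V ∧ x = a * b⁻¹}
  mul_mem' := (lo V.toSubring B).mul_mem'
  one_mem' := (lo V.toSubring B).one_mem'
  add_mem' := (lo V.toSubring B).add_mem'
  zero_mem' := (lo V.toSubring B).zero_mem'
  neg_mem' := (lo V.toSubring B).neg_mem'

/-- The chart `A[I / f]` of the blowing-up of `Spec A` in the ideal `I`. -/
def blowUpChart {F : Type u} [Field F] (A : Subring F) (I : Ideal A) (f : A) : Subring F :=
  Subring.closure ((A : Set F) ∪ {z | ∃ a ∈ I, z = (a : F) / (f : F)})

/-- The element `f ∈ I` generates the ideal `I V`. Then the centre of `V` on the blowing-up of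
`Spec A` in `I` lies in the chart `Spec A[I / f]`. -/
def Generates {F : Type u} [Field F] (V : ValuationSubring F) {A : Subring F} (I : Ideal A)
    (f : A) : Prop :=
  f ∈ I ∧ f ≠ 0 ∧ ∀ a ∈ I, (a : F) / (f : F) ∈ V

/-- The ideal which is generated by the ideal `J` of `A` in the local ring of the chart
`Spec A[I / f]` at the centre of `V`. -/
def extension {F : Type u} [Field F] (V : ValuationSubring F) {A : Subring F} (J I : Ideal A)
    (f : A) : Ideal (centreRing V (blowUpChart A I f)) :=
  Ideal.span {z | ∃ a ∈ J, (z : F) = (a : F)}

/-- The elements `x i` define a divisor with strict normal crossings on `Spec P`, everywhere: for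
each prime ideal `Q` of `P` the local ring is regular, and those `x i` which lie in `Q` are a part
of a regular system of parameters of it (their classes modulo the square of the maximal ideal are
linearly independent over the residue field). -/
def IsSNC {P : Type u} [CommRing P] {m : ℕ} (x : Fin m → P) : Prop :=
  ∀ (Q : Ideal P) [Q.IsPrime], IsRegularLocalRing (Localization.AtPrime Q) ∧
    ∀ c : Fin m → Localization.AtPrime Q, (∀ i, x i ∉ Q → c i = 0) →
      ∑ i, c i * algebraMap P (Localization.AtPrime Q) (x i) ∈
        IsLocalRing.maximalIdeal (Localization.AtPrime Q) ^ 2 →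
      ∀ i, c i ∈ IsLocalRing.maximalIdeal (Localization.AtPrime Q)

/-- The zero set of `J` is a divisor with strict normal crossings on `Spec P`, everywhere. -/
def SNCPair (P : Type u) [CommRing P] (J : Ideal P) : Prop :=
  ∃ (m : ℕ) (x : Fin m → P), IsSNC x ∧ J.radical = Ideal.span {∏ i, x i}

/-- The valuation ring `V` is log uniformizable on `Spec R`: for each closed set `V(D)`, `D ≠ 0`,
there is a blowing-up of `Spec R` in an ideal `I₁ ≠ 0` such that at the centre of `V` on it the
preimage of `V(D) ∪ V(I₁)` is a divisor with strict normal crossings. -/
def IsLogUniformizable {F : Type u} [Field F] (V : ValuationSubring F) (R : Subring F) : Prop :=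
  ∀ D : Ideal R, D ≠ ⊥ → ∃ I₁ : Ideal R, I₁ ≠ ⊥ ∧
    ∃ f, Generates V I₁ f ∧ SNCPair (centreRing V (blowUpChart R I₁ f))
      (extension V (D * I₁) I₁ f)

/-- `P` is a regular local ring of dimension at most two, and the normalizations of its residue
class domains are finite (for example, `P` is excellent). -/
def IsSurface (P : Type u) [CommRing P] : Prop :=
  IsRegularLocalRing P ∧ ringKrullDim P ≤ 2 ∧ ∀ (𝔭 : Ideal P) [𝔭.IsPrime], 𝔭 ≠ ⊥ →
    Module.Finite (P ⧸ 𝔭) (integralClosure (P ⧸ 𝔭) (FractionRing (P ⧸ 𝔭)))

/-- The values at the point `x` of the polynomials over `E` of total degree at most `t`. -/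
noncomputable def values (E : Type u) {K : Type u} [Field E] [Field K] [Algebra E K] {N : ℕ}
    (x : Fin N → K) (t : ℕ) : Submodule E K :=
  (MvPolynomial.restrictTotalDegree (Fin N) E t).map
    (MvPolynomial.aeval x : MvPolynomial (Fin N) E →ₐ[E] K).toLinearMap

/-- The variety in the affine space over `E` with the generic point `x` (the zeros of the
polynomials which vanish at `x`), whose function field is `K`, has dimension `r` and degree at
most `δ`: its Hilbert function, the dimension of the space of the polynomial functions of degree
at most `t` on the variety, is at most `δ * t ^ r / r! + O (t ^ (r - 1))`. -/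
def DegreeAtMost (E : Type u) {K : Type u} [Field E] [Field K] [Algebra E K] {N : ℕ}
    (x : Fin N → K) (r δ : ℕ) : Prop :=
  IntermediateField.adjoin E (Set.range x) = ⊤ ∧ Algebra.trdeg E K = r ∧
    ∃ C : ℕ, ∀ t : ℕ, r.factorial * Module.finrank E (values E x t) ≤ δ * (t + C) ^ r

/-- Let `k` be a large field, let `k ⊆ E ⊆ K` be fields, and let `V` be a valuation ring of `K`
which contains `k` and has the residue field `k` (`hV`). Let `R` be a noetherian subring of `E` with
fraction field `E` such that `k ⊆ R ⊆ V`, and such that `V ∩ E` is log uniformizable on `Spec R`, or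
the local ring of `Spec R` at the centre of `V` is regular of dimension at most two (with finite
normalizations); for example `E = R = k`. Let `x = (x 1, ..., x N)` be the generic point of an
affine variety over `E` with function field `K`, of dimension `r` and degree at most `δ`, and
suppose that the primes `≤ δ ^ 2 ^ r` are not zero in `k`. Then `k` is existentially closed in
`K`. -/
theorem result {k E K : Type u} [Field k] [Field E] [Field K] [Algebra k E] [Algebra k K]
    [Algebra E K] [IsScalarTower k E K] (hk : IsLarge k) (V : ValuationSubring K)
    (hkV : ∀ a : k, algebraMap k K a ∈ V)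
    (hV : ∀ a ∈ V, ∃ c : k, V.valuation (a - algebraMap k K c) < 1)
    (R : Subring E) [IsNoetherianRing R]
    (hfr : ∀ z : E, ∃ a ∈ R, ∃ b ∈ R, b ≠ 0 ∧ z = a * b⁻¹)
    (hkR : ∀ a : k, algebraMap k E a ∈ R) (hRV : ∀ a ∈ R, algebraMap E K a ∈ V)
    (hR : IsLogUniformizable (V.comap (algebraMap E K)) R ∨
      IsSurface (centreRing (V.comap (algebraMap E K)) R))
    (N r δ : ℕ) (x : Fin N → K) (hx : DegreeAtMost E x r δ)
    (hp : ∀ p : ℕ, p.Prime → p ≤ δ ^ 2 ^ r → (p : k) ≠ 0) :
    ExistentiallyClosed k K := by
  have hinfk : Infinite k := Pool.Agent.N102.EC.infinite_of_large hk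
  have hinfE : Infinite E := Infinite.of_injective (algebraMap k E) (algebraMap k E).injective
  obtain ⟨htop, htr, C, hC⟩ := hx
  have hRV' : R ≤ (V.comap (algebraMap E K)).toSubring := fun a ha => hRV a ha
  have hpV : ∀ q : ℕ, q.Prime → q ≤ δ ^ 2 ^ r → V.valuation (q : K) = 1 := by
    intro q hq hle
    have h0 := hp q hq hle
    have h1 : V.valuation (q : K) ≤ 1 := by
      rw [ValuationSubring.valuation_le_one_iff]
      exact natCast_mem V q
    have h2 : V.valuation ((q : K)⁻¹) ≤ 1 := by
      rw [ValuationSubring.valuation_le_one_iff, ← map_natCast (algebraMap k K) q, ← map_inv₀]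
      exact hkV _
    have h3 : V.valuation (q : K) ≠ 0 := by
      rw [Ne, map_eq_zero, ← map_natCast (algebraMap k K) q, map_eq_zero]
      exact h0
    rw [map_inv₀, inv_le_one₀ (zero_lt_iff.2 h3)] at h2
    exact le_antisymm h1 h2
  have hF : HasF (AdlS (V.comap (algebraMap E K)) R)
      ({V.comap (algebraMap E K)} : Set (ValuationSubring E)) := by
    rcases hR with hR | ⟨h1, h2, h3⟩
    · refine hasF_of_logUnif _ R hRV' hfr fun D hD => ?_
      obtain ⟨I₁, h1, f, ⟨hf, hf0, hfV⟩, m, y, hy, h⟩ := hR D hD
      exact ⟨I₁, f, hf, hf0, hfV, m, y, hy, h⟩
    · exact hasF_dim_le_two _ R hRV' hfr h1 h2 h3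
  obtain ⟨A, T, n, X, hSt, hRA, hfrA⟩ := Pool.Agent.N901.EC.t_bd E K N r δ x htop htr C hC V hpV R
    hfr hRV hF
  refine Pool.Agent.N102.EC.ec_of_stage Pool.Agent.N37.EC.t_dvr Pool.Agent.N765.EC.t_quot hk V hV
    A T X hSt (fun c => ?_) hfrA
  rw [IsScalarTower.algebraMap_apply k E K]
  exact hRA _ (hkR c)

end Pool.Agent.Results.MP_4ed7e0_lc.BoundedDegree
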